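import Mathlib

namespace RO2

/-- corridor bounds -/
theorem A_anti {A : ℕ → ℤ} (hA : ∀ n, A (n + 1) = A n - 1 ∨ A (n + 1) = A n) (m k : ℕ) :
    A (m + k) ≤ A m ∧ A m - k ≤ A (m + k) := by
  induction k with
  | zero => simp
  | succ k ih =>
    obtain ⟨h1, h2⟩ := ih
    have h3 := hA (m + k)
    have h4 : m + (k + 1) = m + k + 1 := by ring
    rw [h4]
    push_cast
    rcases h3 with h | h <;> rw [h] <;> constructor <;> linarith

theorem B_mono {B : ℕ → ℤ} (hB : ∀ n, B (n + 1) = B n ∨ B (n + 1) = B n + 1) (m k : ℕ) :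
    B m ≤ B (m + k) ∧ B (m + k) ≤ B m + k := by
  induction k with
  | zero => simp
  | succ k ih =>
    obtain ⟨h1, h2⟩ := ih
    have h3 := hB (m + k)
    have h4 : m + (k + 1) = m + k + 1 := by ring
    rw [h4]
    push_cast
    rcases h3 with h | h <;> rw [h] <;> constructor <;> linarith

/-- the waiting path: wait between v and v+e, then go straight -/
theorem path_exists {A B : ℕ → ℤ} (hA : ∀ n, A (n + 1) = A n - 1 ∨ A (n + 1) = A n)
    (hB : ∀ n, B (n + 1) = B n ∨ B (n + 1) = B n + 1) (s k : ℕ) (v j : ℤ)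
    (hv1 : A s ≤ v) (hv2 : v ≤ B s) (hAB : A s < B s)
    (hj1 : A (s + k) + 1 ≤ j) (hj2 : j ≤ B (s + k) - 1)
    (hd : |j - v| ≤ k) (hpar : (2 : ℤ) ∣ k - |j - v|) :
    ∃ p : ℕ → ℤ, p s = v ∧ p (s + k) = j ∧
      ∀ i, i < k → (p (s + i + 1) = p (s + i) + 1 ∨ p (s + i + 1) = p (s + i) - 1) ∧
        A (s + i + 1) ≤ p (s + i + 1) ∧ p (s + i + 1) ≤ B (s + i + 1) := by
  obtain ⟨e, he, he1, he2⟩ : ∃ e : ℤ, (e = 1 ∨ e = -1) ∧ A s ≤ v + e ∧ v + e ≤ B s := by
    by_cases h : v + 1 ≤ B s
    · exact ⟨1, Or.inl rfl, by linarith, h⟩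
    · exact ⟨-1, Or.inr rfl, by omega, by linarith⟩
  obtain ⟨g, hg, hgj⟩ : ∃ g : ℤ, (g = 1 ∨ g = -1) ∧ g * |j - v| = j - v := by
    rcases abs_cases (j - v) with ⟨h, _⟩ | ⟨h, _⟩
    · exact ⟨1, Or.inl rfl, by rw [h]; ring⟩
    · exact ⟨-1, Or.inr rfl, by rw [h]; ring⟩
  set D : ℕ := (j - v).natAbs with hD
  have hDabs : (D : ℤ) = |j - v| := by rw [hD]; exact Int.natCast_natAbs _
  have hDk : D ≤ k := by
    have : (D : ℤ) ≤ k := by rw [hDabs]; exact hd
    exact_mod_cast this
  obtain ⟨m, hm⟩ : ∃ m : ℕ, k = m + D := ⟨k - D, by omega⟩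
  have hmeven : m % 2 = 0 := by
    rw [← hDabs] at hpar
    omega
  let p : ℕ → ℤ := fun n => if n ≤ s + m then v + e * (((n - s) % 2 : ℕ) : ℤ)
    else v + g * ((n : ℤ) - s - m)
  have hp1 : ∀ i, i ≤ m → p (s + i) = v + e * ((i % 2 : ℕ) : ℤ) := by
    intro i hi
    have h1 : s + i ≤ s + m := by omega
    simp only [p, if_pos h1, Nat.add_sub_cancel_left]
  have hp2 : ∀ i, p (s + m + i) = v + g * (i : ℤ) := by
    intro i
    by_cases hi : i = 0
    · subst hi
      rw [Nat.add_zero, hp1 m le_rfl, hmeven]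
      simp
    · have h1 : ¬ (s + m + i ≤ s + m) := by omega
      simp only [p, if_neg h1]
      push_cast
      ring
  refine ⟨p, ?_, ?_, ?_⟩
  · have := hp1 0 (Nat.zero_le _)
    simpa using this
  · have := hp2 D
    rw [hDabs, hgj] at this
    have h1 : s + k = s + m + D := by omega
    rw [h1, this]; ring
  · intro i hi
    by_cases him : i + 1 ≤ m
    · have h1 := hp1 i (by omega)
      have h2 := hp1 (i + 1) him
      have h3 : s + i + 1 = s + (i + 1) := by ring
      rw [h3, h1, h2]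
      obtain ⟨ha1, _⟩ := A_anti hA s (i + 1)
      obtain ⟨hb1, _⟩ := B_mono hB s (i + 1)
      rcases Nat.mod_two_eq_zero_or_one i with hi0 | hi0
      · have hi1 : (i + 1) % 2 = 1 := by omega
        rw [hi0, hi1]
        rcases he with he | he <;> subst he <;> push_cast <;> refine ⟨?_, ?_, ?_⟩ <;>
          first | linarith | (left; linarith) | (right; linarith)
      · have hi1 : (i + 1) % 2 = 0 := by omega
        rw [hi0, hi1]
        rcases he with he | he <;> subst he <;> push_cast <;> refine ⟨?_, ?_, ?_⟩ <;>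
          first | linarith | (left; linarith) | (right; linarith)
    · obtain ⟨q, hq⟩ : ∃ q, i = m + q := ⟨i - m, by omega⟩
      subst hq
      have hqD : q + 1 ≤ D := by omega
      have h1 := hp2 q
      have h2 := hp2 (q + 1)
      have e1 : s + (m + q) = s + m + q := by ring
      have e2 : s + (m + q) + 1 = s + m + (q + 1) := by ring
      rw [e2, e1, h1, h2]
      obtain ⟨r, hr⟩ : ∃ r, D = q + 1 + r := ⟨D - (q + 1), by omega⟩
      have e3 : s + k = s + m + (q + 1) + r := by omega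
      obtain ⟨_, ha2⟩ := A_anti hA (s + m + (q + 1)) r
      obtain ⟨_, hb2⟩ := B_mono hB (s + m + (q + 1)) r
      rw [← e3] at ha2 hb2
      have e4 : s + m + (q + 1) = s + (m + (q + 1)) := by ring
      obtain ⟨ha1, _⟩ := A_anti hA s (m + (q + 1))
      obtain ⟨hb1, _⟩ := B_mono hB s (m + (q + 1))
      rw [← e4] at ha1 hb1
      have hjv : j = v + g * ((q : ℤ) + 1 + r) := by
        have h5 : g * (D : ℤ) = j - v := by rw [hDabs]; exact hgj
        rw [hr] at h5
        push_cast at h5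
        linarith
      push_cast
      rcases hg with hg | hg <;> subst hg
      · refine ⟨?_, ?_, ?_⟩
        · left; ring
        · have : (0 : ℤ) ≤ q := Int.natCast_nonneg q
          linarith
        · linarith
      · refine ⟨?_, ?_, ?_⟩
        · right; ring
        · linarith
        · have : (0 : ℤ) ≤ q := Int.natCast_nonneg q
          linarith

end RO2
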