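import Mathlib

open MeasureTheory Filter Set

namespace RO3

variable {Ω : Type*} [m0 : MeasurableSpace Ω] {P : Measure Ω} [IsProbabilityMeasure P]

/-- from set inequalities to a lower bound of the conditional expectation -/
theorem condexp_ge {m : MeasurableSpace Ω} (hm : m ≤ m0) {V R : Set Ω} (hV : MeasurableSet[m0] V)
    (hR : MeasurableSet[m] R) {c : ℝ}
    (h : ∀ S, MeasurableSet[m] S → S ⊆ R → c * (P S).toReal ≤ (P (S ∩ V)).toReal) :
    ∀ᵐ ω ∂P, ω ∈ R → c ≤ (P[V.indicator (1 : Ω → ℝ) | m]) ω := by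
  set f : Ω → ℝ := P[V.indicator (1 : Ω → ℝ) | m] with hf
  have hfm : Measurable[m] f := stronglyMeasurable_condExp.measurable
  have hlt : MeasurableSet[m] {ω | f ω < c} := hfm measurableSet_Iio
  have hSm : MeasurableSet[m] (R ∩ {ω | f ω < c}) := @MeasurableSet.inter _ m _ _ hR hlt
  set S : Set Ω := R ∩ {ω | f ω < c} with hS
  have hSm0 : MeasurableSet[m0] S := hm _ hSm
  have hint : Integrable (V.indicator (1 : Ω → ℝ)) P :=
    (integrable_const (1 : ℝ)).indicator hV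
  have h1 : ∫ ω in S, f ω ∂P = (P (S ∩ V)).toReal := by
    rw [hf, setIntegral_condExp hm hint hSm, integral_indicator_one hV]
    simp [Measure.real, Measure.restrict_apply hV, Set.inter_comm]
  have h2 := h S hSm inter_subset_left
  have hfi : IntegrableOn f S P := integrable_condExp.integrableOn
  have hci : IntegrableOn (fun _ : Ω => c) S P := (integrable_const c).integrableOn
  have h3 : ∫ ω in S, (c - f ω) ∂P ≤ 0 := by
    rw [integral_sub hci hfi, h1, setIntegral_const]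
    have : P.real S • c = c * (P S).toReal := by
      rw [smul_eq_mul, mul_comm]; rfl
    linarith
  have h4 : P S = 0 := by
    by_contra hne
    have hpos : 0 < P S := pos_iff_ne_zero.mpr hne
    have h0 : 0 ≤ᵐ[P.restrict S] (fun ω => c - f ω) := by
      rw [EventuallyLE, ae_restrict_iff' hSm0]
      exact Eventually.of_forall fun ω hω => by
        have : f ω < c := hω.2
        simp only [Pi.zero_apply]
        linarith
    have h5 := (setIntegral_pos_iff_support_of_nonneg_ae h0 (hci.sub hfi)).mpr (by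
      have hsub : S ⊆ Function.support (fun ω => c - f ω) ∩ S := by
        intro ω hω
        refine ⟨?_, hω⟩
        have : f ω < c := hω.2
        simp only [Function.mem_support]
        linarith
      exact lt_of_lt_of_le hpos (measure_mono hsub))
    linarith
  have h6 : ∀ᵐ ω ∂P, ω ∉ S := measure_eq_zero_iff_ae_notMem.mp h4
  filter_upwards [h6] with ω hω hR'
  by_contra hc
  exact hω ⟨hR', not_le.mp hc⟩

/-- s is a good time for the value v -/
def PathGood (A B : ℕ → ℤ) (G : Set (ℕ × ℤ)) (K : ℕ) (s : ℕ) (v : ℤ) : Prop :=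
  ∃ (p : ℕ → ℤ) (k : ℕ), 0 < k ∧ k ≤ K ∧ p s = v ∧
    (∀ i, i < k → (p (s + i + 1) = p (s + i) + 1 ∨ p (s + i + 1) = p (s + i) - 1) ∧
      A (s + i + 1) ≤ p (s + i + 1) ∧ p (s + i + 1) ≤ B (s + i + 1)) ∧ (s + k, p (s + k)) ∈ G

/-- the event that G is met at a time in (s, s+K] -/
def Meet (W : ℕ → Ω → ℤ) (G : Set (ℕ × ℤ)) (K : ℕ) (s : ℕ) : Set Ω :=
  {ω | ∃ k, 0 < k ∧ k ≤ K ∧ (s + k, W (s + k) ω) ∈ G}

/-- the step condition -/
def StepGe (P : Measure Ω) (ℱ : Filtration ℕ m0) (W : ℕ → Ω → ℤ) (A B : ℕ → ℤ) (d : ℝ) : Prop :=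
  ∀ n (e : ℤ), (e = 1 ∨ e = -1) → ∀ᵐ ω ∂P, A (n + 1) ≤ W n ω + e → W n ω + e ≤ B (n + 1) →
    d ≤ (P[({ω | W (n + 1) ω = W n ω + e} : Set Ω).indicator (1 : Ω → ℝ) | ℱ n]) ω

theorem meas_eq (ℱ : Filtration ℕ m0) {W : ℕ → Ω → ℤ} (hW : ∀ n, Measurable[ℱ n] (W n))
    (n : ℕ) (v : ℤ) : MeasurableSet[ℱ n] {ω | W n ω = v} :=
  (hW n) (measurableSet_singleton v)

theorem one_step {ℱ : Filtration ℕ m0} {W : ℕ → Ω → ℤ} (hW : ∀ n, Measurable[ℱ n] (W n))
    {A B : ℕ → ℤ} {d : ℝ} (hst : StepGe P ℱ W A B d) (n : ℕ) (v e : ℤ) (he : e = 1 ∨ e = -1)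
    (hA : A (n + 1) ≤ v + e) (hB : v + e ≤ B (n + 1)) (S : Set Ω) (hS : MeasurableSet[ℱ n] S)
    (hSv : S ⊆ {ω | W n ω = v}) :
    d * (P S).toReal ≤ (P (S ∩ {ω | W (n + 1) ω = v + e})).toReal := by
  have hS0 : MeasurableSet S := ℱ.le n _ hS
  have hT : MeasurableSet {ω | W (n + 1) ω = W n ω + e} := by
    have h1 : Measurable (W (n + 1)) := (hW (n + 1)).mono (ℱ.le _) le_rfl
    have h2 : Measurable (W n) := (hW n).mono (ℱ.le _) le_rfl
    exact measurableSet_eq_fun h1 (h2.add_const e)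
  have hint : Integrable (({ω | W (n + 1) ω = W n ω + e} : Set Ω).indicator (1 : Ω → ℝ)) P :=
    (integrable_const (1 : ℝ)).indicator hT
  have h1 : ∫ ω in S, (P[({ω | W (n + 1) ω = W n ω + e} : Set Ω).indicator (1 : Ω → ℝ) | ℱ n]) ω ∂P
      = (P (S ∩ {ω | W (n + 1) ω = v + e})).toReal := by
    rw [setIntegral_condExp (ℱ.le n) hint hS, integral_indicator_one hT]
    have : S ∩ {ω | W (n + 1) ω = v + e} = {ω | W (n + 1) ω = W n ω + e} ∩ S := by
      ext ω
      constructor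
      · rintro ⟨h, h'⟩
        refine ⟨?_, h⟩
        have h'' : W n ω = v := hSv h
        simp only [mem_ofPred_eq] at h' ⊢
        rw [h', h'']
      · rintro ⟨h, h'⟩
        refine ⟨h', ?_⟩
        have h'' : W n ω = v := hSv h'
        simp only [mem_ofPred_eq] at h ⊢
        rw [h, h'']
    simp [Measure.real, Measure.restrict_apply hT, this]
  rw [← h1]
  have h2 : ∫ _ω in S, d ∂P = d * (P S).toReal := by
    rw [setIntegral_const, smul_eq_mul, mul_comm]; rfl
  rw [← h2]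
  apply integral_mono_ae
  · exact (integrable_const d).integrableOn
  · exact integrable_condExp.integrableOn
  · rw [EventuallyLE, ae_restrict_iff' hS0]
    filter_upwards [hst n e he] with ω hω hωS
    have h'' : W n ω = v := hSv hωS
    exact hω (by rw [h'']; exact hA) (by rw [h'']; exact hB)

theorem path_prob {ℱ : Filtration ℕ m0} {W : ℕ → Ω → ℤ} (hW : ∀ n, Measurable[ℱ n] (W n))
    {A B : ℕ → ℤ} {d : ℝ} (hd : 0 ≤ d) (hst : StepGe P ℱ W A B d) (s : ℕ) (p : ℕ → ℤ)
    (S : Set Ω) (hS : MeasurableSet[ℱ s] S) (hSv : S ⊆ {ω | W s ω = p s}) (k : ℕ)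
    (hp : ∀ i, i < k → (p (s + i + 1) = p (s + i) + 1 ∨ p (s + i + 1) = p (s + i) - 1) ∧
      A (s + i + 1) ≤ p (s + i + 1) ∧ p (s + i + 1) ≤ B (s + i + 1)) :
    ∃ T : Set Ω, MeasurableSet[ℱ (s + k)] T ∧ T ⊆ S ∧ T ⊆ {ω | W (s + k) ω = p (s + k)} ∧
      d ^ k * (P S).toReal ≤ (P T).toReal := by
  induction k with
  | zero => exact ⟨S, hS, Subset.rfl, hSv, by simp⟩
  | succ k ih =>
    obtain ⟨T, hT, hTS, hTv, hTp⟩ := ih (fun i hi => hp i (by omega))
    obtain ⟨h1, h2, h3⟩ := hp k (by omega)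
    have he : p (s + k + 1) - p (s + k) = 1 ∨ p (s + k + 1) - p (s + k) = -1 := by
      rcases h1 with h | h
      · left; rw [h]; ring
      · right; rw [h]; ring
    have h4 := one_step hW hst (s + k) (p (s + k)) (p (s + k + 1) - p (s + k)) he
      (by linarith) (by linarith) T hT hTv
    have h5 : p (s + k) + (p (s + k + 1) - p (s + k)) = p (s + k + 1) := by ring
    rw [h5] at h4
    refine ⟨T ∩ {ω | W (s + k + 1) ω = p (s + k + 1)}, ?_, ?_, ?_, ?_⟩
    · exact @MeasurableSet.inter _ (ℱ (s + (k + 1))) _ _ (ℱ.mono (by omega) _ hT)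
        (meas_eq ℱ hW (s + k + 1) _)
    · exact inter_subset_left.trans hTS
    · exact inter_subset_right
    · calc d ^ (k + 1) * (P S).toReal = d * (d ^ k * (P S).toReal) := by ring
        _ ≤ d * (P T).toReal := mul_le_mul_of_nonneg_left hTp hd
        _ ≤ _ := h4

theorem meas_meet {ℱ : Filtration ℕ m0} {W : ℕ → Ω → ℤ} (hW : ∀ n, Measurable[ℱ n] (W n))
    (G : Set (ℕ × ℤ)) (K s : ℕ) : MeasurableSet[ℱ (s + K)] (Meet W G K s) := by
  have : Meet W G K s = ⋃ k ∈ Finset.Icc 1 K, (W (s + k)) ⁻¹' {v | (s + k, v) ∈ G} := by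
    ext ω
    simp only [Meet, mem_ofPred_eq, mem_iUnion, Finset.mem_Icc, mem_preimage, exists_prop]
    constructor
    · rintro ⟨k, h1, h2, h3⟩; exact ⟨k, ⟨h1, h2⟩, h3⟩
    · rintro ⟨k, ⟨h1, h2⟩, h3⟩; exact ⟨k, h1, h2, h3⟩
  rw [this]
  refine Finset.measurableSet_biUnion _ (fun k hk => ?_)
  have hk' := Finset.mem_Icc.mp hk
  exact ℱ.mono (by omega) _ ((hW (s + k)) (MeasurableSet.of_discrete))

theorem meet_ge {ℱ : Filtration ℕ m0} {W : ℕ → Ω → ℤ} (hW : ∀ n, Measurable[ℱ n] (W n))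
    {A B : ℕ → ℤ} {d : ℝ} (hd : 0 ≤ d) (hd1 : d ≤ 1) (hst : StepGe P ℱ W A B d)
    (G : Set (ℕ × ℤ)) (K s : ℕ) :
    ∀ᵐ ω ∂P, PathGood A B G K s (W s ω) →
      d ^ K ≤ (P[(Meet W G K s).indicator (1 : Ω → ℝ) | ℱ s]) ω := by
  have hmeet : MeasurableSet (Meet W G K s) := ℱ.le _ _ (meas_meet hW G K s)
  have key : ∀ v : ℤ, ∀ᵐ ω ∂P, W s ω = v → PathGood A B G K s v →
      d ^ K ≤ (P[(Meet W G K s).indicator (1 : Ω → ℝ) | ℱ s]) ω := by
    intro v
    by_cases hg : PathGood A B G K s v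
    · obtain ⟨p, k, hk0, hkK, hpv, hp, hG⟩ := hg
      have := condexp_ge (P := P) (ℱ.le s) hmeet (meas_eq ℱ hW s v) (c := d ^ K) (by
        intro S hS hSv
        obtain ⟨T, hT, hTS, hTv, hTp⟩ := path_prob hW hd hst s p S hS (by rw [hpv]; exact hSv) k hp
        have hTm : T ⊆ S ∩ Meet W G K s := by
          intro ω hω
          refine ⟨hTS hω, k, hk0, hkK, ?_⟩
          have : W (s + k) ω = p (s + k) := hTv hω
          rw [this]; exact hG
        have h1 : (P T).toReal ≤ (P (S ∩ Meet W G K s)).toReal :=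
          ENNReal.toReal_mono (measure_ne_top P _) (measure_mono hTm)
        have h2 : d ^ K ≤ d ^ k := pow_le_pow_of_le_one hd hd1 hkK
        have h3 : d ^ K * (P S).toReal ≤ d ^ k * (P S).toReal :=
          mul_le_mul_of_nonneg_right h2 ENNReal.toReal_nonneg
        linarith)
      filter_upwards [this] with ω hω h _
      exact hω h
    · exact Eventually.of_forall fun ω _ h => absurd h hg
  have := ae_all_iff.mpr key
  filter_upwards [this] with ω hω hg
  exact hω (W s ω) rfl hg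

/-- a sum of nonnegative terms, infinitely many at least c > 0, tends to infinity -/
theorem tendsto_sum {u : ℕ → ℝ} (hu : ∀ k, 0 ≤ u k) {c : ℝ} (hc : 0 < c)
    (h : ∃ᶠ k in atTop, c ≤ u k) :
    Tendsto (fun n => ∑ k ∈ Finset.range n, u k) atTop atTop := by
  have hmono : Monotone (fun n => ∑ k ∈ Finset.range n, u k) := by
    intro a b hab
    exact Finset.sum_le_sum_of_subset_of_nonneg (Finset.range_mono hab) (fun i _ _ => hu i)
  apply tendsto_atTop_atTop_of_monotone hmono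
  intro b
  have key : ∀ m : ℕ, ∃ n, (m : ℝ) * c ≤ ∑ k ∈ Finset.range n, u k := by
    intro m
    induction m with
    | zero => exact ⟨0, by simp⟩
    | succ m ih =>
      obtain ⟨n, hn⟩ := ih
      obtain ⟨k, hk, hck⟩ := (frequently_atTop.mp h) n
      refine ⟨k + 1, ?_⟩
      rw [Finset.sum_range_succ]
      have h1 : ∑ i ∈ Finset.range n, u i ≤ ∑ i ∈ Finset.range k, u i := hmono hk
      push_cast
      nlinarith
  obtain ⟨m, hm⟩ := exists_nat_ge (b / c)
  obtain ⟨n, hn⟩ := key m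
  refine ⟨n, le_trans ?_ hn⟩
  rwa [div_le_iff₀ hc] at hm

/-- MAIN: infinitely many good times give infinitely many meetings -/
theorem main {ℱ : Filtration ℕ m0} {W : ℕ → Ω → ℤ} (hW : ∀ n, Measurable[ℱ n] (W n))
    {A B : ℕ → ℤ} {d : ℝ} (hd : 0 < d) (hst : StepGe P ℱ W A B d)
    (G : Set (ℕ × ℤ)) (K : ℕ) (hK : 0 < K) :
    ∀ᵐ ω ∂P, (∃ᶠ s in atTop, PathGood A B G K s (W s ω)) → ∃ᶠ n in atTop, (n, W n ω) ∈ G := by
  -- we may take d ≤ 1
  wlog hd1 : d ≤ 1 generalizing d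
  · have hst' : StepGe P ℱ W A B 1 := fun n e he => by
      filter_upwards [hst n e he] with ω hω h1 h2
      exact le_trans (not_le.mp hd1).le (hω h1 h2)
    exact this one_pos hst' le_rfl
  have hres : ∀ r : ℕ, ∀ᵐ ω ∂P, (∃ᶠ k in atTop, PathGood A B G K (K * k + r) (W (K * k + r) ω)) →
      ∃ᶠ n in atTop, (n, W n ω) ∈ G := by
    intro r
    let 𝒢 : Filtration ℕ m0 :=
      { seq := fun i => ℱ (K * i + r)
        mono' := fun i j hij => ℱ.mono (by
          have := Nat.mul_le_mul_left K hij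
          omega)
        le' := fun i => ℱ.le _ }
    let s : ℕ → Set Ω := fun i => match i with
      | 0 => ∅
      | (i + 1) => Meet W G K (K * i + r)
    have hs : ∀ n, MeasurableSet[𝒢 n] (s n) := by
      intro n
      cases n with
      | zero => exact @MeasurableSet.empty _ (𝒢 0)
      | succ i =>
        have h1 := meas_meet hW G K (K * i + r)
        have h2 : K * i + r + K ≤ K * (i + 1) + r := by
          rw [Nat.mul_succ]; omega
        exact ℱ.mono h2 _ h1
    have hlevy := ae_mem_limsup_atTop_iff P (ℱ := 𝒢) hs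
    have hge : ∀ᵐ ω ∂P, ∀ k, PathGood A B G K (K * k + r) (W (K * k + r) ω) →
        d ^ K ≤ (P[(Meet W G K (K * k + r)).indicator (1 : Ω → ℝ) | ℱ (K * k + r)]) ω :=
      ae_all_iff.mpr fun k => meet_ge hW hd.le hd1 hst G K (K * k + r)
    have hnn : ∀ᵐ ω ∂P, ∀ k, 0 ≤
        (P[(Meet W G K (K * k + r)).indicator (1 : Ω → ℝ) | ℱ (K * k + r)]) ω :=
      ae_all_iff.mpr fun k => condExp_nonneg (Eventually.of_forall fun ω =>
        indicator_nonneg (fun _ _ => zero_le_one) _)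
    filter_upwards [hlevy, hge, hnn] with ω h1 h2 h3 h4
    have h5 : Tendsto (fun n => ∑ k ∈ Finset.range n,
        (P[(s (k + 1)).indicator (1 : Ω → ℝ) | 𝒢 k]) ω) atTop atTop := by
      apply tendsto_sum (c := d ^ K) (fun k => h3 k) (pow_pos hd K)
      exact h4.mono fun k hk => h2 k hk
    have h6 : ω ∈ limsup s atTop := h1.mpr h5
    rw [mem_limsup_iff_frequently_mem] at h6
    rw [frequently_atTop] at h6 ⊢
    intro a
    obtain ⟨i, hi, hω⟩ := h6 (a + 1)
    cases i with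
    | zero => exact absurd hω (by simp [s])
    | succ i =>
      obtain ⟨k, hk0, hkK, hkG⟩ := hω
      refine ⟨K * i + r + k, ?_, hkG⟩
      have : i ≤ K * i := Nat.le_mul_of_pos_left i hK
      omega
  have := ae_all_iff.mpr hres
  filter_upwards [this] with ω hω hfr
  by_contra hcon
  have h1 : ∀ r, ¬ ∃ᶠ k in atTop, PathGood A B G K (K * k + r) (W (K * k + r) ω) :=
    fun r h => hcon (hω r h)
  have h2 : ∀ r ∈ Finset.range K, ∀ᶠ k in atTop, ¬ PathGood A B G K (K * k + r) (W (K * k + r) ω) :=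
    fun r _ => not_frequently.mp (h1 r)
  have h3 := (Filter.eventually_all_finset (Finset.range K)).mpr h2
  obtain ⟨N, hN⟩ := eventually_atTop.mp h3
  obtain ⟨n, hn, hng⟩ := (frequently_atTop.mp hfr) (K * N)
  have hq : N ≤ n / K := by
    rw [Nat.le_div_iff_mul_le hK]
    rwa [mul_comm]
  have h4 := hN (n / K) hq (n % K) (Finset.mem_range.mpr (Nat.mod_lt _ hK))
  rw [Nat.div_add_mod] at h4
  exact h4 hng

end RO3
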